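import Mathlib

/-!
Boolean circuits with AND gates, OR gates and gates computing arbitrary Boolean functions.
-/

namespace Pool.Agent.CliqueModules

/-- The Boolean variables `x_{ij}`, `i < j`, of graphs on the vertex set `Fin n`. -/
abbrev EdgeVar (n : ℕ) : Type := {p : Fin n × Fin n // p.1 < p.2}

/-- A gate of a circuit with variables `V` and gates numbered by `Fin s`. It is fed by the wires in
the finite set `J`, each of which is a variable (`Sum.inl v`) or the output of another gate
(`Sum.inr j`). It is an AND gate, an OR gate, or a special gate, which computes an arbitrary Boolean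
function `f` of the values of its wires (`f` is given the set of the wires with value true). For
example a NOT gate is a special gate with one wire. -/
inductive Gate (V : Type) (s : ℕ) : Type
  | and (J : Finset (V ⊕ Fin s)) : Gate V s
  | or (J : Finset (V ⊕ Fin s)) : Gate V s
  | special (J : Finset (V ⊕ Fin s)) (f : Set (V ⊕ Fin s) → Prop) : Gate V s

/-- The wires feeding a gate. -/
def Gate.wires {V : Type} {s : ℕ} : Gate V s → Finset (V ⊕ Fin s)
  | .and J => J
  | .or J => J
  | .special J _ => J

/-- The value computed by a gate, when the wires have the values `v`. -/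
def Gate.value {V : Type} {s : ℕ} (v : V ⊕ Fin s → Prop) : Gate V s → Prop
  | .and J => ∀ w ∈ J, v w
  | .or J => ∃ w ∈ J, v w
  | .special J f => f {w | w ∈ J ∧ v w}

/-- A circuit with `s` gates over the variables `V`. The gates are numbered `0, ..., s - 1` in a
topological order, and `out` is the output gate. -/
structure Circuit (V : Type) (s : ℕ) where
  gate : Fin s → Gate V s
  acyclic : ∀ i j : Fin s, Sum.inr j ∈ (gate i).wires → j < i
  out : Fin s

/-- `val` is the vector of the values of all gates of `D` on the assignment `x` (it exists and is
unique, since the gates are numbered topologically). -/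
def Circuit.IsEval {V : Type} {s : ℕ} (D : Circuit V s) (x : V → Prop) (val : Fin s → Prop) :
    Prop :=
  ∀ i, val i ↔ (D.gate i).value (Sum.elim x val)

/-- `D` computes `CLIQUE_n`: on every graph `G` on `Fin n` its output is true iff `G` has a clique
with more than `√n` vertices. -/
def Circuit.ComputesClique {n s : ℕ} (D : Circuit (EdgeVar n) s) : Prop :=
  ∀ G : SimpleGraph (Fin n), ∃ val : Fin s → Prop,
    D.IsEval (fun e => G.Adj e.1.1 e.1.2) val ∧
    (val D.out ↔ ∃ K : Finset (Fin n), G.IsClique (K : Set (Fin n)) ∧ Real.sqrt n < K.card)

/-- The value of the wire `w` depends on the variables in `T`: it differs on two assignments which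
agree on all variables outside `T`. -/
def Circuit.DependsOn {V : Type} {s : ℕ} (D : Circuit V s) (T : Finset V) (w : V ⊕ Fin s) : Prop :=
  ∃ (x x' : V → Prop) (val val' : Fin s → Prop), (∀ v, v ∉ T → (x v ↔ x' v)) ∧
    D.IsEval x val ∧ D.IsEval x' val' ∧ ¬ (Sum.elim x val w ↔ Sum.elim x' val' w)

open Classical in
/-- The modules of `D`: the sets `J` of wires for which `D` has a special gate fed by `J`. (Several
special gates fed by the same wires, i.e. an arbitrary multi-output function, form one module.) -/
noncomputable def Circuit.modules {V : Type} [Fintype V] {s : ℕ} (D : Circuit V s) :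
    Finset (Finset (V ⊕ Fin s)) :=
  Finset.univ.filter fun J => ∃ i f, D.gate i = Gate.special J f

open Classical in
/-- The number of wires in `J` whose value depends on the variables in `T`. -/
noncomputable def Circuit.numDep {V : Type} {s : ℕ} (D : Circuit V s) (T : Finset V)
    (J : Finset (V ⊕ Fin s)) : ℕ :=
  (J.filter fun w => D.DependsOn T w).card

end Pool.Agent.CliqueModules
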