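import Mathlib
import Pool.Agent.Lib.MP_0a1b52_lc_MOD.Defs

/-!
Evaluation and frozen evaluation of circuits with special gates.
-/

namespace Pool.Agent.CliqueModules

open Finset

variable {V : Type} {s : ℕ}

/-- A local recursion over `Fin s` has a solution. -/
theorem exists_rec {α : Type} (Φ : Fin s → (Fin s → α) → α)
    (hΦ : ∀ i f g, (∀ j, j < i → f j = g j) → Φ i f = Φ i g) [Inhabited α] :
    ∃ f : Fin s → α, ∀ i, f i = Φ i f := by
  classical
  let F : (i : Fin s) → ((j : Fin s) → j < i → α) → α :=
    fun i rec => Φ i (fun j => if h : j < i then rec j h else default)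
  refine ⟨WellFounded.fix (wellFounded_lt (α := Fin s)) F, fun i => ?_⟩
  rw [WellFounded.fix_eq]
  refine hΦ i _ _ ?_
  intro j hj
  simp [hj]

/-- The frozen gate value: a special gate has the value `b`. -/
def Gate.frozen (v : V ⊕ Fin s → Prop) (b : Prop) : Gate V s → Prop
  | .and J => ∀ w ∈ J, v w
  | .or J => ∃ w ∈ J, v w
  | .special _ _ => b

/-- `val` is the vector of gate values on `x`, when the output of each special gate `i` is frozen
to `b i`. -/
def Circuit.IsFrozen (D : Circuit V s) (b : Fin s → Prop) (x : V → Prop) (val : Fin s → Prop) :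
    Prop :=
  ∀ i, val i ↔ (D.gate i).frozen (Sum.elim x val) (b i)

theorem Gate.value_congr {g : Gate V s} {v v' : V ⊕ Fin s → Prop}
    (h : ∀ w ∈ g.wires, v w ↔ v' w) : g.value v ↔ g.value v' := by
  cases g with
  | and J => exact forall₂_congr h
  | or J =>
    constructor
    · rintro ⟨w, hw, hv⟩; exact ⟨w, hw, (h w hw).1 hv⟩
    · rintro ⟨w, hw, hv⟩; exact ⟨w, hw, (h w hw).2 hv⟩
  | special J f =>
    have : {w | w ∈ J ∧ v w} = {w | w ∈ J ∧ v' w} := by
      ext w
      exact and_congr_right fun hw => h w hw
    simp only [Gate.value]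
    rw [this]

theorem Gate.frozen_congr {g : Gate V s} {v v' : V ⊕ Fin s → Prop} {b : Prop}
    (h : ∀ w ∈ g.wires, v w ↔ v' w) : g.frozen v b ↔ g.frozen v' b := by
  cases g with
  | and J => exact forall₂_congr h
  | or J =>
    constructor
    · rintro ⟨w, hw, hv⟩; exact ⟨w, hw, (h w hw).1 hv⟩
    · rintro ⟨w, hw, hv⟩; exact ⟨w, hw, (h w hw).2 hv⟩
  | special J f => exact Iff.rfl

theorem Gate.frozen_mono {g : Gate V s} {v v' : V ⊕ Fin s → Prop} {b : Prop}
    (h : ∀ w ∈ g.wires, v w → v' w) : g.frozen v b → g.frozen v' b := by
  cases g with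
  | and J => exact fun h' w hw => h w hw (h' w hw)
  | or J => exact fun ⟨w, hw, hv⟩ => ⟨w, hw, h w hw hv⟩
  | special J f => exact id

theorem Circuit.exists_eval (D : Circuit V s) (x : V → Prop) : ∃ val, D.IsEval x val := by
  obtain ⟨f, hf⟩ := exists_rec (α := Prop) (fun i val => (D.gate i).value (Sum.elim x val)) (by
    intro i f g hfg
    apply propext
    apply Gate.value_congr
    intro w hw
    cases w with
    | inl v => exact Iff.rfl
    | inr j => exact iff_of_eq (hfg j (D.acyclic i j hw)))
  exact ⟨f, fun i => iff_of_eq (hf i)⟩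

theorem Circuit.exists_frozen (D : Circuit V s) (b : Fin s → Prop) (x : V → Prop) :
    ∃ val, D.IsFrozen b x val := by
  obtain ⟨f, hf⟩ := exists_rec (α := Prop)
    (fun i val => (D.gate i).frozen (Sum.elim x val) (b i)) (by
    intro i f g hfg
    apply propext
    apply Gate.frozen_congr
    intro w hw
    cases w with
    | inl v => exact Iff.rfl
    | inr j => exact iff_of_eq (hfg j (D.acyclic i j hw)))
  exact ⟨f, fun i => iff_of_eq (hf i)⟩

theorem Circuit.IsEval.unique {D : Circuit V s} {x : V → Prop} {val val' : Fin s → Prop}
    (h : D.IsEval x val) (h' : D.IsEval x val') : val = val' := by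
  funext i
  apply propext
  induction i using WellFoundedLT.induction with
  | ind i ih =>
    rw [h i, h' i]
    apply Gate.value_congr
    intro w hw
    cases w with
    | inl v => exact Iff.rfl
    | inr j => exact ih j (D.acyclic i j hw)

theorem Circuit.IsFrozen.unique {D : Circuit V s} {b : Fin s → Prop} {x : V → Prop}
    {val val' : Fin s → Prop} (h : D.IsFrozen b x val) (h' : D.IsFrozen b x val') :
    val = val' := by
  funext i
  apply propext
  induction i using WellFoundedLT.induction with
  | ind i ih =>
    rw [h i, h' i]
    apply Gate.frozen_congr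
    intro w hw
    cases w with
    | inl v => exact Iff.rfl
    | inr j => exact ih j (D.acyclic i j hw)

theorem Circuit.IsFrozen.mono {D : Circuit V s} {b : Fin s → Prop} {x x' : V → Prop}
    {val val' : Fin s → Prop} (h : D.IsFrozen b x val) (h' : D.IsFrozen b x' val')
    (hx : ∀ v, x v → x' v) : ∀ w : V ⊕ Fin s, Sum.elim x val w → Sum.elim x' val' w := by
  have key : ∀ i, val i → val' i := by
    intro i
    induction i using WellFoundedLT.induction with
    | ind i ih =>
      rw [h i, h' i]
      apply Gate.frozen_mono
      intro w hw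
      cases w with
      | inl v => exact hx v
      | inr j => exact ih j (D.acyclic i j hw)
  intro w
  cases w with
  | inl v => exact hx v
  | inr j => exact key j

/-- A true evaluation is frozen at its own values. -/
theorem Circuit.IsEval.isFrozen {D : Circuit V s} {x : V → Prop} {val : Fin s → Prop}
    (h : D.IsEval x val) : D.IsFrozen val x val := by
  intro i
  have hi := h i
  cases hg : D.gate i with
  | and J => rw [hg] at hi; exact hi
  | or J => rw [hg] at hi; exact hi
  | special J f => exact Iff.rfl

/-- A wire is a target if it feeds a special gate or is the output. -/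
def Circuit.IsTarget (D : Circuit V s) (w : V ⊕ Fin s) : Prop :=
  w = Sum.inr D.out ∨ ∃ i J f, D.gate i = Gate.special J f ∧ w ∈ J

/-- If the evaluation frozen to the values `val` at `x` gives at `x'` the same values to all wires
feeding special gates, then it is the true evaluation. -/
theorem Circuit.IsFrozen.isEval {D : Circuit V s} {x x' : V → Prop} {val val' : Fin s → Prop}
    (h : D.IsEval x val) (h' : D.IsFrozen val x' val')
    (hw : ∀ i J f, D.gate i = Gate.special J f → ∀ w ∈ J,
      (Sum.elim x val w ↔ Sum.elim x' val' w)) : D.IsEval x' val' := by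
  intro i
  have hi := h' i
  cases hg : D.gate i with
  | and J => rw [hg] at hi; exact hi
  | or J => rw [hg] at hi; exact hi
  | special J f =>
    rw [hg] at hi
    rw [hi]
    have h1 := h i
    rw [hg] at h1
    show val i ↔ _
    rw [h1]
    apply Gate.value_congr
    intro w hw'
    exact hw i J f hg w hw'

/-- Monotonicity below the first special gate whose input changes. -/
theorem Circuit.mono_before {D : Circuit V s} {x x' : V → Prop} {val val' : Fin s → Prop}
    (h : D.IsEval x val) (h' : D.IsEval x' val') (hx : ∀ v, x v → x' v) (i : Fin s)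
    (hi : ∀ j, j < i → ∀ J f, D.gate j = Gate.special J f →
      ∀ w ∈ J, (Sum.elim x val w ↔ Sum.elim x' val' w)) :
    ∀ j, j < i → val j → val' j := by
  intro j
  induction j using WellFoundedLT.induction with
  | ind j ih =>
    intro hj
    have hw : ∀ w ∈ (D.gate j).wires, Sum.elim x val w → Sum.elim x' val' w := by
      intro w hw
      cases w with
      | inl v => exact hx v
      | inr k => exact ih k (D.acyclic j k hw) ((D.acyclic j k hw).trans hj)
    rw [h j, h' j]
    cases hg : D.gate j with
    | and J =>
      rw [hg] at hw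
      exact fun h1 w hw' => hw w hw' (h1 w hw')
    | or J =>
      rw [hg] at hw
      exact fun ⟨w, hw', h1⟩ => ⟨w, hw', hw w hw' h1⟩
    | special J f =>
      have := Gate.value_congr (g := Gate.special J f) (hi j hj J f hg)
      exact this.1

end Pool.Agent.CliqueModules
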