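import Mathlib
import Pool.Agent.Lib.MP_0a1b52_lc_MOD.Eval

/-!
The potential argument: along a chain of assignments on which the input of some module changes at
each step, the number of steps is bounded by a product over the modules.
-/

namespace Pool.Agent.CliqueModules

open Finset

theorem lex_bound {W : Type} {s : ℕ} (A : Finset W) (pos : W → Fin s) (k : W → ℕ)
    (M : ℕ) (a : ℕ → W → ℕ) (hpos : ∀ J ∈ A, ∀ J' ∈ A, pos J = pos J' → J = J')
    (hak : ∀ t, ∀ J ∈ A, a t J ≤ k J)
    (hstep : ∀ t < M, ∃ J ∈ A, a t J < a (t + 1) J ∧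
      ∀ J' ∈ A, pos J' < pos J → a t J' = a (t + 1) J') :
    M < ∏ J ∈ A, (1 + k J) := by
  classical
  let R : (W → ℕ) → (W → ℕ) → Prop := fun u v =>
    ∃ J ∈ A, u J < v J ∧ ∀ J' ∈ A, pos J' < pos J → u J' = v J'
  have htrans : ∀ u v w, R u v → R v w → R u w := by
    rintro u v w ⟨J1, hJ1, h1, h1'⟩ ⟨J2, hJ2, h2, h2'⟩
    rcases lt_trichotomy (pos J1) (pos J2) with h | h | h
    · refine ⟨J1, hJ1, ?_, ?_⟩
      · rw [← h2' J1 hJ1 h]; exact h1
      · intro J' hJ' hlt
        rw [h1' J' hJ' hlt, h2' J' hJ' (hlt.trans h)]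
    · have := hpos _ hJ1 _ hJ2 h
      subst this
      refine ⟨J1, hJ1, h1.trans h2, ?_⟩
      intro J' hJ' hlt
      rw [h1' J' hJ' hlt, h2' J' hJ' hlt]
    · refine ⟨J2, hJ2, ?_, ?_⟩
      · rw [h1' J2 hJ2 h]; exact h2
      · intro J' hJ' hlt
        rw [h1' J' hJ' (hlt.trans h), h2' J' hJ' hlt]
  have hlt : ∀ e t, t + e + 1 ≤ M → R (a t) (a (t + e + 1)) := by
    intro e
    induction e with
    | zero =>
      intro t ht
      exact hstep t (by omega)
    | succ e ih =>
      intro t ht
      exact htrans _ _ _ (ih t (by omega)) (hstep (t + e + 1) (by omega))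
  have hcard : (range (M + 1)).card ≤ (A.pi (fun J => range (1 + k J))).card := by
    refine card_le_card_of_injOn (fun t J _ => a t J) ?_ ?_
    · intro t _
      simp only [mem_coe, mem_pi, mem_range]
      intro J hJ
      have := hak t J hJ
      omega
    · intro t ht t' ht' heq
      simp only [coe_range, Set.mem_Iio] at ht ht'
      have hne : ∀ t t', t < t' → t' < M + 1 →
          (fun (J : W) (_ : J ∈ A) => a t J) ≠ fun J _ => a t' J := by
        intro t t' h h' heq
        obtain ⟨e, rfl⟩ : ∃ e, t' = t + e + 1 := ⟨t' - t - 1, by omega⟩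
        obtain ⟨J, hJ, hl, -⟩ := hlt e t (by omega)
        have : a t J = a (t + e + 1) J := congrFun (congrFun heq J) hJ
        omega
      rcases lt_trichotomy t t' with h | h | h
      · exact absurd heq (hne t t' h ht')
      · exact h
      · exact absurd heq.symm (hne t' t h ht)
  rw [card_range, card_pi] at hcard
  simp only [card_range] at hcard
  omega

theorem chain_bound {V : Type} [Fintype V] {s : ℕ} (D : Circuit V s) (T : Finset V) (M : ℕ)
    (x : ℕ → V → Prop) (val : ℕ → Fin s → Prop) (hval : ∀ t, D.IsEval (x t) (val t))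
    (hx : ∀ t v, x t v → x (t + 1) v) (hT : ∀ t v, v ∉ T → (x t v ↔ x (t + 1) v))
    (hstep : ∀ t < M, ∃ i J f w, D.gate i = Gate.special J f ∧ w ∈ J ∧
      ¬ (Sum.elim (x t) (val t) w ↔ Sum.elim (x (t + 1)) (val (t + 1)) w)) :
    M < ∏ J ∈ D.modules, (1 + D.numDep T J) := by
  classical
  have hmod : ∀ J, J ∈ D.modules ↔ ∃ i f, D.gate i = Gate.special J f := by
    intro J
    simp [Circuit.modules]
  have hex : ∀ J ∈ D.modules, ∃ i, (∃ f, D.gate i = Gate.special J f) ∧
      ∀ i' < i, ¬ ∃ f, D.gate i' = Gate.special J f := by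
    intro J hJ
    obtain ⟨i, hi, hmin⟩ := WellFounded.has_min (wellFounded_lt (α := Fin s))
      {i | ∃ f, D.gate i = Gate.special J f} ((hmod J).1 hJ)
    exact ⟨i, hi, fun i' hi' hc => hmin i' hc hi'⟩
  have hout : Nonempty (Fin s) := ⟨D.out⟩
  choose! pos hpos1 hpos2 using hex
  refine lex_bound D.modules pos (D.numDep T) M
    (fun t J => (J.filter fun w => D.DependsOn T w ∧ Sum.elim (x t) (val t) w).card) ?_ ?_ ?_
  · intro J hJ J' hJ' h
    obtain ⟨f, hf⟩ := hpos1 J hJ
    obtain ⟨f', hf'⟩ := hpos1 J' hJ'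
    rw [← h, hf] at hf'
    exact (Gate.special.inj hf').1
  · intro t J _
    apply card_le_card
    intro w hw
    rw [mem_filter] at hw ⊢
    exact ⟨hw.1, hw.2.1⟩
  · intro t ht
    -- the first special gate with a changed wire
    obtain ⟨i, ⟨J, f, w, hg, hw, hne⟩, hmin⟩ := WellFounded.has_min (wellFounded_lt (α := Fin s))
      {i | ∃ J f w, D.gate i = Gate.special J f ∧ w ∈ J ∧
        ¬ (Sum.elim (x t) (val t) w ↔ Sum.elim (x (t + 1)) (val (t + 1)) w)} (by
        obtain ⟨i, J, f, w, h⟩ := hstep t ht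
        exact ⟨i, J, f, w, h⟩)
    have hbefore : ∀ j, j < i → ∀ J f, D.gate j = Gate.special J f →
        ∀ w ∈ J, (Sum.elim (x t) (val t) w ↔ Sum.elim (x (t + 1)) (val (t + 1)) w) := by
      intro j hj J f hg w hw
      by_contra hcon
      exact hmin j ⟨J, f, w, hg, hw, hcon⟩ hj
    have hJ : J ∈ D.modules := (hmod J).2 ⟨i, f, hg⟩
    have hposJ : pos J = i := by
      obtain ⟨f', hf'⟩ := hpos1 J hJ
      apply le_antisymm
      · by_contra hcon
        exact hpos2 J hJ i (not_le.1 hcon) ⟨f, hg⟩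
      · by_contra hcon
        exact hmin (pos J) ⟨J, f', w, hf', hw, hne⟩ (not_le.1 hcon)
    have hmono := Circuit.mono_before (hval t) (hval (t + 1)) (hx t) i hbefore
    have hmono' : ∀ w ∈ J, Sum.elim (x t) (val t) w → Sum.elim (x (t + 1)) (val (t + 1)) w := by
      intro w hw
      cases w with
      | inl v => exact hx t v
      | inr j => exact hmono j (D.acyclic i j (by rw [hg]; exact hw))
    have hdep : ∀ w, ¬ (Sum.elim (x t) (val t) w ↔ Sum.elim (x (t + 1)) (val (t + 1)) w) →
        D.DependsOn T w := by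
      intro w h
      exact ⟨x t, x (t + 1), val t, val (t + 1), hT t, hval t, hval (t + 1), h⟩
    refine ⟨J, hJ, ?_, ?_⟩
    · apply card_lt_card
      rw [ssubset_iff_of_subset]
      · refine ⟨w, ?_, ?_⟩
        · rw [mem_filter]
          refine ⟨hw, hdep w hne, ?_⟩
          by_contra hcon
          exact hne ⟨hmono' w hw, fun h => absurd h hcon⟩
        · rw [mem_filter]
          rintro ⟨_, _, h⟩
          exact hne ⟨hmono' w hw, fun _ => h⟩
      · intro w hw
        rw [mem_filter] at hw ⊢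
        exact ⟨hw.1, hw.2.1, hmono' w hw.1 hw.2.2⟩
    · intro J' hJ' hlt
      rw [hposJ] at hlt
      obtain ⟨f', hf'⟩ := hpos1 J' hJ'
      congr 1
      apply filter_congr
      intro w hw
      rw [hbefore (pos J') hlt J' f' hf' w hw]

end Pool.Agent.CliqueModules
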