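import Mathlib
import Pool.Agent.Lib.MP_0a1b52_lc_NN.Gadget
import Pool.Agent.Lib.MP_0a1b52_lc_MOD.Defs

/-!
The union of many copies of the constraint gadget, one for each region, which share vertices.
-/

namespace Pool.Agent.CliqueModules

open Finset Pool.Agent.MP0a1b52

set_option linter.unusedSectionVars false

variable {n : ℕ} {F A W J R β : Type} [Field F] [Fintype F] [DecidableEq F]
  [Fintype A] [DecidableEq A] {d p : ℕ}

/-- The conditions on the vertex maps of the regions. -/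
structure IsPack (ε : R → GV F A W d p → Fin n) (b : R → β) : Prop where
  inj : ∀ ρ ρ' a a', ε ρ a = ε ρ' a' → a = a'
  aux : ∀ ρ ρ' z, ε ρ (.inr z) = ε ρ' (.inr z)
  leaf : ∀ ρ ρ' ι, ε ρ (.inl (.inl ι)) = ε ρ' (.inl (.inl ι)) → b ρ = b ρ'
  part : ∀ ρ ρ' w, ε ρ (.inl (.inr w)) = ε ρ' (.inl (.inr w)) → b ρ = b ρ' → ρ = ρ'

section

variable (φ : F → A) (σ : W → J) (π : F × A → W) (ε : R → GV F A W d p → Fin n)

/-- The union of the gadgets. -/
def UG (x : R → Set (F × A)) : SimpleGraph (Fin n) where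
  Adj u u' := u ≠ u' ∧ ∃ ρ a a', ε ρ a = u ∧ ε ρ a' = u' ∧ (gadget φ σ π d p (x ρ)).Adj a a'
  symm := ⟨fun _ _ ⟨h, ρ, a, a', h1, h2, h3⟩ => ⟨h.symm, ρ, a', a, h2, h1, h3.symm⟩⟩
  loopless := ⟨fun _ h => h.1 rfl⟩

/-- The edge variable `e` carries the variable `ι` of the region `ρ`. -/
def Carries (e : EdgeVar n) (ρ : R) (ι : F × A) : Prop :=
  (e.1.1 = ε ρ (.inl (.inl ι)) ∧ e.1.2 = ε ρ (.inl (.inr (π ι)))) ∨
  (e.1.1 = ε ρ (.inl (.inr (π ι))) ∧ e.1.2 = ε ρ (.inl (.inl ι)))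

variable {b : R → β} (hε : IsPack ε b)

include hε

theorem UG_adj (x : R → Set (F × A)) (ρ : R) (a a' : GV F A W d p) :
    (UG φ σ π ε x).Adj (ε ρ a) (ε ρ a') ↔ (gadget φ σ π d p (x ρ)).Adj a a' := by
  constructor
  · rintro ⟨-, ρ', c, c', h1, h2, h3⟩
    have e1 := hε.inj _ _ _ _ h1
    have e2 := hε.inj _ _ _ _ h2
    subst e1
    subst e2
    by_cases k1 : ∃ ι, c = .inl (.inl ι) ∧ c' = .inl (.inr (π ι))
    · obtain ⟨ι, rfl, rfl⟩ := k1
      have := hε.part _ _ _ h2 (hε.leaf _ _ _ h1)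
      rwa [this] at h3
    · by_cases k2 : ∃ ι, c' = .inl (.inl ι) ∧ c = .inl (.inr (π ι))
      · obtain ⟨ι, rfl, rfl⟩ := k2
        have := hε.part _ _ _ h1 (hε.leaf _ _ _ h2)
        rwa [this] at h3
      · push Not at k1 k2
        exact gadget_adj_indep φ σ π (x ρ') (x ρ) c c' (fun ι h => k1 ι h.1 h.2)
          (fun ι h => k2 ι h.1 h.2) h3
  · intro h
    refine ⟨?_, ρ, a, a', rfl, rfl, h⟩
    intro h'
    have := hε.inj _ _ _ _ h'
    subst this
    exact h.ne rfl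

theorem UG_adj_carries {e : EdgeVar n} {ρ : R} {ι : F × A} (h : Carries π ε e ρ ι)
    (x : R → Set (F × A)) : (UG φ σ π ε x).Adj e.1.1 e.1.2 ↔ ι ∈ x ρ := by
  rcases h with ⟨h1, h2⟩ | ⟨h1, h2⟩
  · rw [h1, h2, UG_adj φ σ π ε hε, gadget_adj_var]
  · rw [h1, h2, SimpleGraph.adj_comm, UG_adj φ σ π ε hε, gadget_adj_var]

omit hε in
theorem UG_adj_indep {e : EdgeVar n} (h : ∀ ρ ι, ¬ Carries π ε e ρ ι)
    (x y : R → Set (F × A)) :
    (UG φ σ π ε x).Adj e.1.1 e.1.2 → (UG φ σ π ε y).Adj e.1.1 e.1.2 := by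
  rintro ⟨hne, ρ, a, a', h1, h2, h3⟩
  refine ⟨hne, ρ, a, a', h1, h2, gadget_adj_indep φ σ π (x ρ) (y ρ) a a' ?_ ?_ h3⟩
  · rintro ι ⟨rfl, rfl⟩
    exact h ρ ι (Or.inl ⟨h1.symm, h2.symm⟩)
  · rintro ι ⟨rfl, rfl⟩
    exact h ρ ι (Or.inr ⟨h1.symm, h2.symm⟩)

omit hε in
theorem UG_mono {x y : R → Set (F × A)} (hxy : ∀ ρ, x ρ ⊆ y ρ) (u u' : Fin n) :
    (UG φ σ π ε x).Adj u u' → (UG φ σ π ε y).Adj u u' := by
  rintro ⟨hne, ρ, a, a', h1, h2, h3⟩
  exact ⟨hne, ρ, a, a', h1, h2, gadget_mono φ σ π (hxy ρ) a a' h3⟩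

/-- Full cliques of the union are planted in a single region. -/
theorem UG_clique (hd : 1 ≤ d) [Nonempty J] [Fintype J] [DecidableEq J]
    (hJ : (∀ j j' : J, j = j') ∨ Function.Injective b)
    (hπ : ∀ h : F → A, ∃ w : J → W, (∀ j, σ (w j) = j) ∧ ∀ i, w (σ (π (i, h i))) = π (i, h i))
    (x : R → Set (F × A)) :
    (∃ K : Finset (Fin n), (UG φ σ π ε x).IsClique (K : Set (Fin n)) ∧
      Fintype.card (GS F J d p) ≤ K.card) ↔
    ∃ ρ, ∃ c : Fin d → F, testPos φ c ⊆ x ρ := by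
  classical
  have hne : Nonempty (GS F J d p) := ⟨.inl (.inl 0)⟩
  let sl : Fin n → GS F J d p := fun u =>
    if h : ∃ ρ a, ε ρ a = u then slot σ h.choose_spec.choose else Classical.arbitrary _
  have hsl : ∀ ρ a, sl (ε ρ a) = slot σ a := by
    intro ρ a
    have h : ∃ ρ' a', ε ρ' a' = ε ρ a := ⟨ρ, a, rfl⟩
    have h1 : sl (ε ρ a) = slot σ h.choose_spec.choose := dif_pos h
    rw [h1]
    congr 1
    exact hε.inj _ _ _ _ h.choose_spec.choose_spec
  have hsep : ∀ u u', (UG φ σ π ε x).Adj u u' → sl u ≠ sl u' := by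
    rintro u u' ⟨-, ρ, a, a', rfl, rfl, h3⟩
    rw [hsl, hsl]
    exact h3.1
  rw [clique_iff_section (UG φ σ π ε x) sl hsep]
  constructor
  · rintro ⟨s, hs, hadj⟩
    have hrange : ∀ τ, ∃ ρ a, ε ρ a = s τ := by
      intro τ
      obtain ⟨τ', hτ'⟩ : ∃ τ' : GS F J d p, τ ≠ τ' := by
        by_cases h : τ = .inl (.inl 0)
        · refine ⟨.inl (.inl 1), ?_⟩
          rw [h]; simp
        · exact ⟨_, h⟩
      obtain ⟨-, ρ, a, a', h1, -, -⟩ := hadj τ τ' hτ'
      exact ⟨ρ, a, h1⟩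
    choose r a hra using hrange
    have hslot : ∀ τ, slot σ (a τ) = τ := by
      intro τ
      rw [← hsl (r τ) (a τ), hra τ, hs τ]
    have hcommon : ∀ τ τ', τ ≠ τ' → ∃ ρ, ε ρ (a τ) = s τ ∧ ε ρ (a τ') = s τ' := by
      intro τ τ' hne
      obtain ⟨-, ρ, c, c', h1, h2, -⟩ := hadj τ τ' hne
      have e1 : c = a τ := hε.inj _ _ _ _ (h1.trans (hra τ).symm)
      have e2 : c' = a τ' := hε.inj _ _ _ _ (h2.trans (hra τ').symm)
      subst e1
      subst e2
      exact ⟨ρ, h1, h2⟩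
    have hleaf : ∀ i : F, ∃ ι, a (.inl (.inl i)) = .inl (.inl ι) := by
      intro i
      have := hslot (.inl (.inl i))
      rcases hv : a (.inl (.inl i)) with (ι | w) | (v | k)
      · exact ⟨ι, rfl⟩
      · rw [hv] at this; simp [slot] at this
      · rw [hv] at this; simp [slot] at this
      · rw [hv] at this; simp [slot] at this
    have hpart : ∀ j : J, ∃ w, a (.inl (.inr j)) = .inl (.inr w) := by
      intro j
      have := hslot (.inl (.inr j))
      rcases hv : a (.inl (.inr j)) with (ι | w) | (v | k)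
      · rw [hv] at this; simp [slot] at this
      · exact ⟨w, rfl⟩
      · rw [hv] at this; simp [slot] at this
      · rw [hv] at this; simp [slot] at this
    have haux : ∀ τ, ∃ z, a (.inr τ) = .inr z := by
      intro τ
      have := hslot (.inr τ)
      rcases hv : a (.inr τ) with (ι | w) | z
      · rw [hv] at this; simp [slot] at this
      · rw [hv] at this; simp [slot] at this
      · exact ⟨z, rfl⟩
    obtain ⟨j0⟩ : Nonempty J := inferInstance
    obtain ⟨ρ0, h00, h0j⟩ := hcommon (.inl (.inl 0)) (.inl (.inr j0)) (by simp)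
    have hbleaf : ∀ ρ ρ' (i : F), ε ρ (a (.inl (.inl i))) = ε ρ' (a (.inl (.inl i))) →
        b ρ = b ρ' := by
      intro ρ ρ' i h
      obtain ⟨ι, hι⟩ := hleaf i
      rw [hι] at h
      exact hε.leaf _ _ _ h
    have hall : ∀ τ, ε ρ0 (a τ) = s τ := by
      rintro ((i | j) | τ)
      · by_cases hi : i = 0
        · subst hi; exact h00
        · obtain ⟨ρ1, h1, h1j⟩ := hcommon (.inl (.inl i)) (.inl (.inr j0)) (by simp)
          obtain ⟨ρ2, h2, h20⟩ := hcommon (.inl (.inl i)) (.inl (.inl 0)) (by simpa using hi)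
          have e1 : b ρ2 = b ρ1 := hbleaf _ _ i (h2.trans h1.symm)
          have e2 : b ρ2 = b ρ0 := hbleaf _ _ 0 (h20.trans h00.symm)
          obtain ⟨w, hw⟩ := hpart j0
          rw [hw] at h1j h0j
          have e3 : ρ1 = ρ0 := hε.part _ _ _ (h1j.trans h0j.symm) (e1.symm.trans e2)
          rw [← e3]; exact h1
      · by_cases hj : j = j0
        · subst hj; exact h0j
        · obtain ⟨ρ1, h1, h1j⟩ := hcommon (.inl (.inl 0)) (.inl (.inr j)) (by simp)
          have e1 : b ρ1 = b ρ0 := hbleaf _ _ 0 (h1.trans h00.symm)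
          rcases hJ with hJ | hJ
          · exact absurd (hJ j j0) hj
          · rw [← hJ e1]; exact h1j
      · obtain ⟨z, hz⟩ := haux τ
        rw [← hra (.inr τ), hz]
        exact hε.aux _ _ _
    refine ⟨ρ0, (gadget_section φ σ π hd hπ (x ρ0)).1 ⟨a, hslot, ?_⟩⟩
    intro τ τ' hne
    rw [← UG_adj φ σ π ε hε, hall, hall]
    exact hadj τ τ' hne
  · rintro ⟨ρ, hc⟩
    obtain ⟨s, hs, hadj⟩ := (gadget_section (p := p) φ σ π hd hπ (x ρ)).2 hc
    refine ⟨fun τ => ε ρ (s τ), ?_, ?_⟩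
    · intro τ
      rw [hsl, hs]
    · intro τ τ' hne
      exact (UG_adj φ σ π ε hε x ρ _ _).2 (hadj τ τ' hne)

end

end Pool.Agent.CliqueModules
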