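import Mathlib
import Pool.Agent.Lib.MP_0a1b52_lc_NN.Count
import Pool.Agent.Lib.MP_0a1b52_lc_MOD.Eval

/-!
One step of the chain: either a planted positive state of a block is not noticed by any target, or
a negative state of the block switches some target on.
-/

namespace Pool.Agent.CliqueModules

open Finset Pool.Agent.MP0a1b52

section frozen

variable {V I : Type} [DecidableEq I] {s : ℕ}

/-- Variables and constants are approximated without errors. -/
theorem good_inputs (d : ℕ) (hd : 2 ≤ d) (X : Set I → V → Prop)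
    (hX : ∀ v, (∃ ι, ∀ z, X z v ↔ ι ∈ z) ∨ (∃ p : Prop, ∀ z, X z v ↔ p)) :
    Good d d {g | ∃ v, g = fun z => X z v} 0 := by
  refine ⟨∅, ∅, by simp, by simp, by simp, by simp, ?_⟩
  rintro g ⟨v, rfl⟩
  rcases hX v with ⟨ι, hι⟩ | ⟨p, hp⟩
  · refine ⟨{{ι}}, {{ι}}, ?_, ?_, ?_, ?_, ?_⟩
    · simp; omega
    · simp; omega
    · intro x hx; simpa [dnf, cnf] using hx
    · intro x hx _; simpa [dnf, hι] using hx
    · intro x hx _; simpa [cnf, hι] using hx
  · by_cases h : p
    · refine ⟨∅, {∅}, ?_, ?_, ?_, ?_, ?_⟩
      · simp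
      · simp; omega
      · intro x hx; simp [cnf]
      · intro x hx _; simp [dnf]
      · intro x hx _; exact (hp x).2 h
    · refine ⟨{∅}, ∅, ?_, ?_, ?_, ?_, ?_⟩
      · simp; omega
      · simp
      · intro x hx; simp [dnf] at hx
      · intro x hx _; exact absurd ((hp x).1 hx) h
      · intro x hx _; simp [cnf] at hx

/-- All nodes of a frozen circuit are approximated with common errors. -/
theorem frozen_good (D : Circuit V s) (b : Fin s → Prop) (d : ℕ) (hd : 2 ≤ d)
    (X : Set I → V → Prop)
    (hX : ∀ v, (∃ ι, ∀ z, X z v ↔ ι ∈ z) ∨ (∃ p : Prop, ∀ z, X z v ↔ p))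
    (val : Set I → Fin s → Prop) (hval : ∀ z, D.IsFrozen b (X z) (val z)) :
    Good d d {g | ∃ w, g = fun z => Sum.elim (X z) (val z) w} s := by
  have key : ∀ i ≤ s, Good d d ({g | ∃ v, g = fun z => X z v} ∪
      {g | ∃ j : Fin s, j.val < i ∧ g = fun z => val z j}) i := by
    intro i
    induction i with
    | zero =>
      intro _
      refine (good_inputs d hd X hX).subset ?_
      rintro g (hg | ⟨j, hj, _⟩)
      · exact hg
      · omega
    | succ i ih =>
      intro hi
      have ih' := ih (by omega)
      set 𝓖 := ({g | ∃ v, g = fun z => X z v} ∪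
        {g | ∃ j : Fin s, j.val < i ∧ g = fun z => val z j} : Set (Set I → Prop)) with h𝓖
      set k : Fin s := ⟨i, by omega⟩ with hk
      have hsub : ({g | ∃ v, g = fun z => X z v} ∪
          {g | ∃ j : Fin s, j.val < i + 1 ∧ g = fun z => val z j} : Set (Set I → Prop)) ⊆
          insert (fun z => val z k) 𝓖 := by
        rintro g (hg | ⟨j, hj, rfl⟩)
        · exact Or.inr (Or.inl hg)
        · rcases Nat.lt_succ_iff_lt_or_eq.1 hj with hj | hj
          · exact Or.inr (Or.inr ⟨j, hj, rfl⟩)
          · left
            have : j = k := Fin.ext hj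
            rw [this]
      refine Good.subset ?_ hsub
      have hwire : ∀ w ∈ (D.gate k).wires, (fun z => Sum.elim (X z) (val z) w) ∈ 𝓖 := by
        intro w hw
        cases w with
        | inl v => exact Or.inl ⟨v, rfl⟩
        | inr j => exact Or.inr ⟨j, D.acyclic k j hw, rfl⟩
      cases hg : D.gate k with
      | and J =>
        have hval' : (fun z => val z k) =
            fun z => ∀ w ∈ J, (fun w z => Sum.elim (X z) (val z) w) w z := by
          funext z
          apply propext
          have := hval z k
          rw [hg] at this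
          exact this
        rw [hval']
        apply ih'.insert_and J (fun w z => Sum.elim (X z) (val z) w)
        intro w hw
        exact hwire w (by rw [hg]; exact hw)
      | or J =>
        have hval' : (fun z => val z k) =
            fun z => ∃ w ∈ J, (fun w z => Sum.elim (X z) (val z) w) w z := by
          funext z
          apply propext
          have := hval z k
          rw [hg] at this
          exact this
        rw [hval']
        apply ih'.insert_or J (fun w z => Sum.elim (X z) (val z) w)
        intro w hw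
        exact hwire w (by rw [hg]; exact hw)
      | special J f =>
        have hval' : (fun z => val z k) = fun _ => b k := by
          funext z
          apply propext
          have := hval z k
          rw [hg] at this
          exact this
        rw [hval']
        exact (ih'.insert_const hd hd _).mono (by omega)
  refine (key s le_rfl).subset ?_
  rintro g ⟨w, rfl⟩
  cases w with
  | inl v => exact Or.inl ⟨v, rfl⟩
  | inr j => exact Or.inr ⟨j, j.2, rfl⟩

end frozen

section step

variable {F : Type} [Field F] [Fintype F] [DecidableEq F]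
variable {A : Type} [Fintype A] [DecidableEq A]
variable {d : ℕ} (φ : F → A) (B : ℕ)

open Classical in
theorem step_or (hB : ∀ α, (univ.filter fun z : F => φ z = α).card ≤ B)
    (hd : 2 ≤ d) (h2 : 2 * ((d - 1) * B) ≤ Fintype.card F) (hdF : d ≤ Fintype.card F)
    (hneg : 4 * (Fintype.card F ^ d * (4 * d - 1) ^ Fintype.card F) ≤
      (4 * d) ^ Fintype.card F)
    (𝓖 : Set (Set (F × A) → Prop)) (a : ℕ) (ha : a < 2 ^ d) (hg : Good d d 𝓖 a) :
    (∃ c : Fin d → F, ∀ g ∈ 𝓖, g (testPos φ c) → g ∅) ∨
    (∃ g ∈ 𝓖, ¬ g ∅ ∧ ∃ ω : F × A → Fin (4 * d),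
      (∀ c : Fin d → F, ¬ testPos φ c ⊆ testNeg ω) ∧ g (testNeg ω)) := by
  obtain ⟨P, N, hP, hPc, hN, hNc, hgood⟩ := hg
  have hFpos : 0 < Fintype.card F := Fintype.card_pos
  have hApos : 0 < Fintype.card A := Fintype.card_pos_iff.2 ⟨φ 0⟩
  set q := Fintype.card F with hq
  by_cases h : ∀ g ∈ 𝓖, ¬ g ∅ → ∃ C, Approx d d g C ∅ P N
  · left
    obtain ⟨c, hc⟩ : ∃ c : Fin d → F, ¬ dnf P (testPos φ c) := by
      by_contra hcon
      push Not at hcon
      have hcov : (univ : Finset (Fin d → F)) ⊆ P.biUnion fun m =>
          univ.filter fun c : Fin d → F => (m : Set (F × A)) ⊆ testPos φ c := by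
        intro c _
        obtain ⟨m, hm, hmc⟩ := hcon c
        exact mem_biUnion.2 ⟨m, hm, by simpa using hmc⟩
      have h1 := (card_le_card hcov).trans card_biUnion_le
      have h3 : ∑ m ∈ P, (univ.filter fun c : Fin d → F =>
          (m : Set (F × A)) ⊆ testPos φ c).card ≤ (a * (d - 1) ^ d) * B ^ d := by
        refine (sum_le_sum fun m hm => card_pos_monomial φ B hB m (hP m hm)).trans ?_
        simp only [sum_const, smul_eq_mul]
        exact Nat.mul_le_mul_right _ hPc
      rw [card_univ, Fintype.card_fun, Fintype.card_fin, ← hq] at h1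
      have h4 : q ^ d ≤ a * ((d - 1) * B) ^ d := by
        calc q ^ d ≤ (a * (d - 1) ^ d) * B ^ d := h1.trans h3
          _ = a * ((d - 1) * B) ^ d := by rw [mul_pow]; ring
      have h5 : 2 ^ d * ((d - 1) * B) ^ d ≤ q ^ d := by
        rw [← mul_pow]
        exact Nat.pow_le_pow_left h2 _
      have h6 : 0 < q ^ d := pow_pos hFpos _
      rcases Nat.eq_zero_or_pos (((d - 1) * B) ^ d) with h7 | h7
      · rw [h7] at h4; omega
      · have : a * ((d - 1) * B) ^ d < 2 ^ d * ((d - 1) * B) ^ d :=
          Nat.mul_lt_mul_of_pos_right ha h7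
        omega
    refine ⟨c, ?_⟩
    intro g hg hgc
    by_contra hne
    obtain ⟨C, hA⟩ := h g hg hne
    obtain ⟨m, hm, -⟩ := hA.pos _ hgc hc
    simp at hm
  · right
    push Not at h
    obtain ⟨g, hgG, hge, hC⟩ := h
    obtain ⟨C, D, hA⟩ := hgood g hgG
    have hDne : D.Nonempty := by
      rw [nonempty_iff_ne_empty]
      rintro rfl
      exact hC C hA
    obtain ⟨m, hm⟩ := hDne
    have hmc : m.card ≤ d - 1 := by
      have := hA.cD m hm
      omega
    refine ⟨g, hgG, hge, ?_⟩
    by_contra hcon
    push Not at hcon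
    set M := 4 * d with hM
    have hMpos : 0 < M := by omega
    set n := Fintype.card (F × A) with hn
    have hqn : q ≤ n := by
      rw [hn, Fintype.card_prod]
      exact Nat.le_mul_of_pos_right _ hApos
    have hdn : d ≤ n := hdF.trans hqn
    have hcov : (univ : Finset (F × A → Fin M)) ⊆
        (m.biUnion fun v => univ.filter fun ω : F × A → Fin M =>
          ∀ u ∈ ({v} : Finset (F × A)), u ∉ testNeg ω) ∪
        ((univ.biUnion fun c : Fin d → F =>
          univ.filter fun ω : F × A → Fin M => testPos φ c ⊆ testNeg ω) ∪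
        (N.biUnion fun c => univ.filter fun ω : F × A → Fin M => ∀ v ∈ c, v ∉ testNeg ω)) := by
      intro ω _
      by_cases h1 : (m : Set (F × A)) ⊆ testNeg ω
      · apply mem_union_right
        by_cases hω : ∃ c : Fin d → F, testPos φ c ⊆ testNeg ω
        · obtain ⟨c, hc⟩ := hω
          apply mem_union_left
          exact mem_biUnion.2 ⟨c, mem_univ _, by simpa using hc⟩
        · push Not at hω
          apply mem_union_right
          have h3 : ¬ g (testNeg ω) := hcon ω hω
          have h4 : ¬ cnf N (testNeg ω) := by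
            intro hcn
            exact h3 (hA.neg _ (hA.le _ ⟨m, hm, h1⟩) hcn)
          unfold cnf at h4
          push Not at h4
          obtain ⟨c, hc, hcv⟩ := h4
          exact mem_biUnion.2 ⟨c, hc, by simpa using hcv⟩
      · apply mem_union_left
        obtain ⟨v, hv, hvω⟩ := Set.not_subset.1 h1
        exact mem_biUnion.2 ⟨v, hv, by simpa using hvω⟩
    have hcard := card_le_card hcov
    have h1 : (univ : Finset (F × A → Fin M)).card = M ^ n := by
      rw [card_univ, Fintype.card_fun, Fintype.card_fin]
    have k1 : 4 * (m.biUnion fun v => univ.filter fun ω : F × A → Fin M =>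
          ∀ u ∈ ({v} : Finset (F × A)), u ∉ testNeg ω).card ≤ M ^ n := by
      have h3 : (m.biUnion fun v => univ.filter fun ω : F × A → Fin M =>
          ∀ u ∈ ({v} : Finset (F × A)), u ∉ testNeg ω).card ≤ (d - 1) * M ^ (n - 1) := by
        refine card_biUnion_le.trans ?_
        refine (sum_le_sum fun v _ => card_neg_clause (M := M) ({v} : Finset (F × A))).trans ?_
        simp only [card_singleton, sum_const, smul_eq_mul]
        exact Nat.mul_le_mul_right _ hmc
      have h5 : M ^ n = M * M ^ (n - 1) := by
        rw [← pow_succ', Nat.sub_add_cancel (by omega)]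
      rw [h5]
      calc 4 * (m.biUnion fun v => univ.filter fun ω : F × A → Fin M =>
          ∀ u ∈ ({v} : Finset (F × A)), u ∉ testNeg ω).card ≤ 4 * ((d - 1) * M ^ (n - 1)) :=
            Nat.mul_le_mul_left _ h3
        _ = (4 * (d - 1)) * M ^ (n - 1) := by ring
        _ ≤ M * M ^ (n - 1) := Nat.mul_le_mul_right _ (by omega)
    have k2 : 4 * (univ.biUnion fun c : Fin d → F =>
          univ.filter fun ω : F × A → Fin M => testPos φ c ⊆ testNeg ω).card ≤ M ^ n := by
      have h3 : (univ.biUnion fun c : Fin d → F =>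
          univ.filter fun ω : F × A → Fin M => testPos φ c ⊆ testNeg ω).card ≤
          q ^ d * ((M - 1) ^ q * M ^ (n - q)) := by
        refine card_biUnion_le.trans ?_
        refine (sum_le_sum fun c _ => card_neg_bad φ c).trans ?_
        simp [card_univ, hq, hn]
      calc 4 * (univ.biUnion fun c : Fin d → F =>
          univ.filter fun ω : F × A → Fin M => testPos φ c ⊆ testNeg ω).card
          ≤ 4 * (q ^ d * ((M - 1) ^ q * M ^ (n - q))) := Nat.mul_le_mul_left _ h3
        _ = (4 * (q ^ d * (M - 1) ^ q)) * M ^ (n - q) := by ring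
        _ ≤ M ^ q * M ^ (n - q) := Nat.mul_le_mul_right _ hneg
        _ = M ^ n := by rw [← pow_add, Nat.add_sub_cancel' hqn]
    have k3 : 4 * (N.biUnion fun c => univ.filter fun ω : F × A → Fin M =>
        ∀ v ∈ c, v ∉ testNeg ω).card ≤ M ^ n := by
      have h4 : (N.biUnion fun c => univ.filter fun ω : F × A → Fin M =>
          ∀ v ∈ c, v ∉ testNeg ω).card ≤ (a * (d - 1) ^ d) * M ^ (n - d) := by
        refine card_biUnion_le.trans ?_
        refine (sum_le_sum fun c hc => card_neg_clause c).trans ?_
        calc ∑ c ∈ N, M ^ (n - c.card) = ∑ c ∈ N, M ^ (n - d) :=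
              sum_congr rfl fun c hc => by rw [hN c hc]
          _ = N.card * M ^ (n - d) := by simp
          _ ≤ _ := Nat.mul_le_mul_right _ hNc
      have h5 : 4 * (a * (d - 1) ^ d) ≤ M ^ d := by
        calc 4 * (a * (d - 1) ^ d) ≤ 4 * (2 ^ d * (d - 1) ^ d) :=
              Nat.mul_le_mul_left _ (Nat.mul_le_mul_right _ ha.le)
          _ = 2 ^ 2 * (2 * (d - 1)) ^ d := by rw [mul_pow]; norm_num
          _ ≤ 2 ^ d * (2 * (d - 1)) ^ d :=
              Nat.mul_le_mul_right _ (Nat.pow_le_pow_right (by norm_num) hd)
          _ = (4 * (d - 1)) ^ d := by rw [← mul_pow]; congr 1; ring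
          _ ≤ M ^ d := Nat.pow_le_pow_left (by omega) _
      calc 4 * (N.biUnion fun c => univ.filter fun ω : F × A → Fin M =>
          ∀ v ∈ c, v ∉ testNeg ω).card ≤ 4 * ((a * (d - 1) ^ d) * M ^ (n - d)) :=
            Nat.mul_le_mul_left _ h4
        _ = (4 * (a * (d - 1) ^ d)) * M ^ (n - d) := by ring
        _ ≤ M ^ d * M ^ (n - d) := Nat.mul_le_mul_right _ h5
        _ = M ^ n := by rw [← pow_add, Nat.add_sub_cancel' hdn]
    rw [h1] at hcard
    have h7 := hcard.trans ((card_union_le _ _).trans (Nat.add_le_add_left (card_union_le _ _) _))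
    have h8 : 0 < M ^ n := pow_pos hMpos _
    omega

end step

end Pool.Agent.CliqueModules
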