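import Mathlib
import Pool.Agent.Lib.MP_0a1b52_lc_MOD.Region
import Pool.Agent.Lib.MP_0a1b52_lc_MOD.Step
import Pool.Agent.Lib.MP_0a1b52_lc_MOD.Chain

/-!
The chain of graphs, and the bound on the number of regions.
-/

namespace Pool.Agent.CliqueModules

open Finset Pool.Agent.MP0a1b52

set_option linter.unusedSectionVars false

theorem sqrt_lt_iff (n m : ℕ) : Real.sqrt n < m ↔ Nat.sqrt n + 1 ≤ m := by
  rcases Nat.eq_zero_or_pos m with hm | hm
  · subst hm
    simp only [Nat.cast_zero]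
    constructor
    · intro h; exact absurd h (not_lt.2 (Real.sqrt_nonneg _))
    · intro h; omega
  · have hm' : (0 : ℝ) < m := by exact_mod_cast hm
    rw [Real.sqrt_lt' hm', Nat.succ_le_iff, Nat.sqrt_lt']
    exact_mod_cast Iff.rfl

variable {n s : ℕ} {F A W J R β : Type} [Field F] [Fintype F] [DecidableEq F]
  [Fintype A] [DecidableEq A] {d p : ℕ}
  (φ : F → A) (σ : W → J) (π : F × A → W) (ε : R → GV F A W d p → Fin n)

/-- The assignment given by the states of the regions. -/
def asg (x : R → Set (F × A)) : EdgeVar n → Prop := fun e => (UG φ σ π ε x).Adj e.1.1 e.1.2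

variable {b : R → β}

open Classical in
/-- One step: the input of some special gate changes. -/
theorem one_step (hε : IsPack ε b) (hd : 2 ≤ d) [Nonempty J] [Fintype J] [DecidableEq J]
    (hJ : (∀ j j' : J, j = j') ∨ Function.Injective b)
    (hπ : ∀ h : F → A, ∃ w : J → W, (∀ j, σ (w j) = j) ∧ ∀ i, w (σ (π (i, h i))) = π (i, h i))
    (hcard : Fintype.card (GS F J d p) = Nat.sqrt n + 1)
    (D : Circuit (EdgeVar n) s) (hD : D.ComputesClique)
    (Bd : ℕ) (hB : ∀ α, (univ.filter fun z : F => φ z = α).card ≤ Bd)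
    (h2 : 2 * ((d - 1) * Bd) ≤ Fintype.card F) (hdF : d ≤ Fintype.card F)
    (hneg : 4 * (Fintype.card F ^ d * (4 * d - 1) ^ Fintype.card F) ≤
      (4 * d) ^ Fintype.card F) (hs : s < 2 ^ d)
    (x : R → Set (F × A)) (hx : ∀ ρ, ∀ c : Fin d → F, ¬ testPos φ c ⊆ x ρ)
    (ρ : R) (hρ : x ρ = ∅) (val : Fin s → Prop) (hval : D.IsEval (asg φ σ π ε x) val) :
    ∃ z : Set (F × A), (∀ c : Fin d → F, ¬ testPos φ c ⊆ z) ∧
      ∀ val', D.IsEval (asg φ σ π ε (Function.update x ρ z)) val' →
        ∃ i J f w, D.gate i = Gate.special J f ∧ w ∈ J ∧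
          ¬ (Sum.elim (asg φ σ π ε x) val w ↔
            Sum.elim (asg φ σ π ε (Function.update x ρ z)) val' w) := by
  -- the circuit computes clique
  have hacc : ∀ (y : R → Set (F × A)) (v : Fin s → Prop), D.IsEval (asg φ σ π ε y) v →
      (v D.out ↔ ∃ ρ, ∃ c : Fin d → F, testPos φ c ⊆ y ρ) := by
    intro y v hv
    obtain ⟨v', hv', hout⟩ := hD (UG φ σ π ε y)
    have hvv : v = v' := hv.unique hv'
    rw [hvv, hout, ← UG_clique φ σ π ε hε (by omega) hJ hπ y]
    refine exists_congr fun K => and_congr_right fun _ => ?_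
    rw [sqrt_lt_iff, hcard]
  set X : Set (F × A) → EdgeVar n → Prop := fun z => asg φ σ π ε (Function.update x ρ z) with hX
  have hX0 : X ∅ = asg φ σ π ε x := by
    rw [hX]
    simp only
    rw [← hρ, Function.update_eq_self]
  have hXty : ∀ v, (∃ ι, ∀ z, X z v ↔ ι ∈ z) ∨ (∃ p : Prop, ∀ z, X z v ↔ p) := by
    intro e
    by_cases hc : ∃ ρ' ι, Carries π ε e ρ' ι
    · obtain ⟨ρ', ι, hc⟩ := hc
      by_cases hρρ : ρ' = ρ
      · subst hρρ
        left
        refine ⟨ι, fun z => ?_⟩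
        show (UG φ σ π ε (Function.update x ρ' z)).Adj e.1.1 e.1.2 ↔ _
        rw [UG_adj_carries φ σ π ε hε hc, Function.update_self]
      · right
        refine ⟨ι ∈ x ρ', fun z => ?_⟩
        show (UG φ σ π ε (Function.update x ρ z)).Adj e.1.1 e.1.2 ↔ _
        rw [UG_adj_carries φ σ π ε hε hc, Function.update_of_ne hρρ]
    · right
      push Not at hc
      refine ⟨X ∅ e, fun z => ?_⟩
      exact ⟨UG_adj_indep φ σ π ε hc _ _, UG_adj_indep φ σ π ε hc _ _⟩
  have hXmono : ∀ z, ∀ v, X ∅ v → X z v := by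
    intro z e
    refine UG_mono φ σ π ε ?_ _ _
    intro ρ'
    by_cases h : ρ' = ρ
    · subst h
      rw [Function.update_self]
      exact Set.empty_subset _
    · rw [Function.update_of_ne h, Function.update_of_ne h]
  have hfro : ∀ z, ∃ v, D.IsFrozen val (X z) v := fun z => D.exists_frozen val (X z)
  choose v hv using hfro
  have hv0 : v ∅ = val := by
    have h1 := hval.isFrozen
    rw [← hX0] at h1
    exact (hv ∅).unique h1
  have hgood := frozen_good D val d hd X hXty v hv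
  set 𝓖 : Set (Set (F × A) → Prop) :=
    {g | ∃ w, D.IsTarget w ∧ g = fun z => Sum.elim (X z) (v z) w} with h𝓖
  have hgood' : Good d d 𝓖 s := hgood.subset (by
    rintro g ⟨w, -, rfl⟩
    exact ⟨w, rfl⟩)
  rcases step_or φ Bd hB hd h2 hdF hneg 𝓖 s hs hgood' with ⟨c, hc⟩ | ⟨g, ⟨w, hw, rfl⟩, hg0, ω, hω, hgω⟩
  · exfalso
    have hkey : ∀ w, D.IsTarget w →
        (Sum.elim (X ∅) (v ∅) w ↔ Sum.elim (X (testPos φ c)) (v (testPos φ c)) w) := by
      intro w hw
      constructor
      · exact (hv ∅).mono (hv (testPos φ c)) (hXmono _) w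
      · exact hc _ ⟨w, hw, rfl⟩
    have heval0 : D.IsEval (X ∅) (v ∅) := by rw [hX0, hv0]; exact hval
    have heval : D.IsEval (X (testPos φ c)) (v (testPos φ c)) := by
      refine Circuit.IsFrozen.isEval (x := X ∅) (val := v ∅) heval0 ?_ ?_
      · rw [hv0]; exact hv _
      · intro i J f hi w hw
        exact hkey w (Or.inr ⟨i, J, f, hi, hw⟩)
    have h1 : v (testPos φ c) D.out := (hacc _ _ heval).2 ⟨ρ, c, by rw [Function.update_self]⟩
    have h3 : v ∅ D.out := (hkey (Sum.inr D.out) (Or.inl rfl)).2 h1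
    rw [hv0] at h3
    obtain ⟨ρ', c', h4⟩ := (hacc x val hval).1 h3
    exact hx ρ' c' h4
  · refine ⟨testNeg ω, hω, ?_⟩
    intro val' hval'
    by_contra hcon
    push Not at hcon
    have hfr : D.IsFrozen val (X (testNeg ω)) val' := by
      intro i
      have hi := hval' i
      cases hgi : D.gate i with
      | and J => rw [hgi] at hi; exact hi
      | or J => rw [hgi] at hi; exact hi
      | special J f =>
        rw [hgi] at hi
        rw [hi]
        have h5 := hval i
        rw [hgi] at h5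
        show _ ↔ val i
        rw [h5]
        exact (Gate.value_congr (g := Gate.special J f) (fun w hw => hcon i J f w hgi hw)).symm
    have hvv : v (testNeg ω) = val' := (hv _).unique hfr
    simp only at hg0 hgω
    rw [hX0, hv0] at hg0
    rw [hvv] at hgω
    rcases hw with rfl | ⟨i, J, f, hi, hwJ⟩
    · obtain ⟨ρ', c', h4⟩ := (hacc _ val' hval').1 hgω
      by_cases h : ρ' = ρ
      · subst h
        rw [Function.update_self] at h4
        exact hω c' h4
      · rw [Function.update_of_ne h] at h4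
        exact hx ρ' c' h4
    · exact hg0 ((hcon i J f w hi hwJ).2 hgω)

open Classical in
/-- The number of regions is smaller than the product over the modules. -/
theorem regions_lt [Fintype R] (hε : IsPack ε b) (hd : 2 ≤ d) [Nonempty J] [Fintype J]
    [DecidableEq J] (hJ : (∀ j j' : J, j = j') ∨ Function.Injective b)
    (hπ : ∀ h : F → A, ∃ w : J → W, (∀ j, σ (w j) = j) ∧ ∀ i, w (σ (π (i, h i))) = π (i, h i))
    (hcard : Fintype.card (GS F J d p) = Nat.sqrt n + 1)
    (D : Circuit (EdgeVar n) s) (hD : D.ComputesClique) (T : Finset (EdgeVar n))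
    (hT : ∀ e ρ ι, Carries π ε e ρ ι → e ∈ T)
    (Bd : ℕ) (hB : ∀ α, (univ.filter fun z : F => φ z = α).card ≤ Bd)
    (h2 : 2 * ((d - 1) * Bd) ≤ Fintype.card F) (hdF : d ≤ Fintype.card F)
    (hneg : 4 * (Fintype.card F ^ d * (4 * d - 1) ^ Fintype.card F) ≤
      (4 * d) ^ Fintype.card F) (hs : s < 2 ^ d) :
    Fintype.card R < ∏ J ∈ D.modules, (1 + D.numDep T J) := by
  -- states
  let St : Type := {x : R → Set (F × A) // ∀ ρ, ∀ c : Fin d → F, ¬ testPos φ c ⊆ x ρ}
  have hevl : ∀ x : R → Set (F × A), ∃ val, D.IsEval (asg φ σ π ε x) val :=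
    fun x => D.exists_eval _
  choose evl hevl using hevl
  have hstep : ∀ (x : St) (ρ : R), ∃ x' : St, (x.1 ρ = ∅ →
      (∀ ρ', ρ' ≠ ρ → x'.1 ρ' = x.1 ρ') ∧
      ∃ i J f w, D.gate i = Gate.special J f ∧ w ∈ J ∧
          ¬ (Sum.elim (asg φ σ π ε x.1) (evl x.1) w ↔
            Sum.elim (asg φ σ π ε x'.1) (evl x'.1) w)) := by
    intro x ρ
    by_cases hρ : x.1 ρ = ∅
    · obtain ⟨z, hz, hz'⟩ := one_step φ σ π ε hε hd hJ hπ hcard D hD Bd hB h2 hdF hneg hs x.1 x.2
        ρ hρ (evl x.1) (hevl x.1)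
      refine ⟨⟨Function.update x.1 ρ z, ?_⟩, fun _ => ⟨?_, ?_⟩⟩
      · intro ρ' c
        by_cases h : ρ' = ρ
        · subst h; rw [Function.update_self]; exact hz c
        · rw [Function.update_of_ne h]; exact x.2 ρ' c
      · intro ρ' h
        exact Function.update_of_ne h _ _
      · exact hz' _ (hevl _)
    · exact ⟨x, fun h => absurd h hρ⟩
  choose nx hnx using hstep
  let x0 : St := ⟨fun _ => ∅, by
    intro ρ c h
    have h1 : ((0 : F), φ (ev c 0)) ∈ testPos φ c := rfl
    exact h h1⟩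
  set M := Fintype.card R with hM
  let e : Fin M ≃ R := (Fintype.equivFin R).symm
  let y : ℕ → St := fun t => Nat.rec x0
    (fun t yt => if h : t < M then nx yt (e ⟨t, h⟩) else yt) t
  have hy1 : ∀ t (h : t < M), y (t + 1) = nx (y t) (e ⟨t, h⟩) := by
    intro t h
    show (if h : t < M then nx (y t) (e ⟨t, h⟩) else y t) = _
    rw [dif_pos h]
  have hy2 : ∀ t (_ : ¬ t < M), y (t + 1) = y t := by
    intro t h
    show (if h : t < M then nx (y t) (e ⟨t, h⟩) else y t) = _
    rw [dif_neg h]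
  have hempty : ∀ t, ∀ j : Fin M, t ≤ j.val → (y t).1 (e j) = ∅ := by
    intro t
    induction t with
    | zero => intro j _; rfl
    | succ t ih =>
      intro j hj
      have ht : t < M := by omega
      rw [hy1 t ht]
      have h1 := (hnx (y t) (e ⟨t, ht⟩) (ih ⟨t, ht⟩ le_rfl)).1 (e j) (by
        intro h
        have := congrArg Fin.val (e.injective h)
        simp only at this
        omega)
      rw [h1]
      exact ih j (by omega)
  have hsub : ∀ t ρ, (y t).1 ρ ⊆ (y (t + 1)).1 ρ := by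
    intro t ρ
    by_cases ht : t < M
    · rw [hy1 t ht]
      by_cases hρ : ρ = e ⟨t, ht⟩
      · rw [hρ, hempty t ⟨t, ht⟩ le_rfl]
        exact Set.empty_subset _
      · rw [(hnx (y t) (e ⟨t, ht⟩) (hempty t ⟨t, ht⟩ le_rfl)).1 ρ hρ]
    · rw [hy2 t ht]
  refine chain_bound D T M (fun t => asg φ σ π ε (y t).1) (fun t => evl (y t).1)
    (fun t => hevl _) ?_ ?_ ?_
  · intro t v
    exact UG_mono φ σ π ε (hsub t) _ _
  · intro t v hv
    have hno : ∀ ρ ι, ¬ Carries π ε v ρ ι := fun ρ ι h => hv (hT v ρ ι h)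
    exact ⟨UG_adj_indep φ σ π ε hno _ _, UG_adj_indep φ σ π ε hno _ _⟩
  · intro t ht
    have h1 := (hnx (y t) (e ⟨t, ht⟩) (hempty t ⟨t, ht⟩ le_rfl)).2
    rw [← hy1 t ht] at h1
    exact h1

end Pool.Agent.CliqueModules
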