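import Mathlib
import Pool.Agent.Lib.MP_0a1b52_lc_NN.Params
import Pool.Agent.Lib.MP_0a1b52_lc.Packing
import Pool.Agent.Lib.MP_0a1b52_lc_MOD.Core

/-!
Parameters and the main theorem.
-/

namespace Pool.Agent.CliqueModules

open Finset Pool.Agent.MP0a1b52

theorem params : ∃ C : ℕ, 81 ≤ C ∧ ∀ L : ℕ, 1 ≤ L → ∃ d q Bd a : ℕ, q.Prime ∧ 2 ≤ d ∧ d ≤ q ∧
    1 ≤ Bd ∧ q ≤ a * Bd ∧ 2 * ((d - 1) * Bd) ≤ q ∧
    4 * (q ^ d * (4 * d - 1) ^ q) ≤ (4 * d) ^ q ∧ 2 ^ L ≤ 2 ^ d ∧
    32 * L * (L + 1) * (q * a) + 16 * L * (q * a) ^ 2 ≤ C * L ^ 8 ∧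
    (2 * q + q * d) ^ 2 ≤ C * L ^ 8 ∧
    8 * (q ^ 3 * d) ≤ C * L ^ 8 := by
  obtain ⟨C', hC'⟩ := exists_log_bound
  refine ⟨81 + (64 * 10752 + 16 * 10752 ^ 2 + 4 * 336 ^ 2 * 64 + 8 * 336 ^ 3 * 128) * C',
    by omega, ?_⟩
  intro L hL
  set C := 81 + (64 * 10752 + 16 * 10752 ^ 2 + 4 * 336 ^ 2 * 64 + 8 * 336 ^ 3 * 128) * C' with hC
  set l := Nat.log 2 L + 1 with hl
  have hl1 : 1 ≤ l := by omega
  have hlog : l ^ 10 ≤ C' * L := hC' L hL
  have hlog1 : l ≤ C' * L := (Nat.le_self_pow (by norm_num) l).trans hlog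
  have hlog2 : l ^ 2 ≤ C' * L := (Nat.pow_le_pow_right hl1 (by norm_num)).trans hlog
  have hlog3 : l ^ 3 ≤ C' * L := (Nat.pow_le_pow_right hl1 (by norm_num)).trans hlog
  have hLl : L ≤ 2 ^ l := (Nat.lt_pow_succ_log_self (by norm_num) L).le
  have hll : l ≤ 2 ^ l := Nat.lt_two_pow_self.le
  set e := 14 * l with he
  set d := L + 1 with hd
  have he1 : 1 ≤ e := by omega
  have hd2 : 2 ≤ d := by omega
  have hd2L : d ≤ 2 * L := by omega
  set X := 4 * d * (e * d + 2) with hX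
  have hXpos : X ≠ 0 := by
    have : 0 < X := by positivity
    omega
  obtain ⟨q, hqp, hXq, hq2⟩ := Nat.exists_prime_lt_and_le_two_mul X hXpos
  have hed1 : 1 ≤ e * d := Nat.mul_pos he1 (by omega)
  have hX2 : X ≤ 12 * (e * d ^ 2) := by
    calc X = 4 * d * (e * d + 2) := hX
      _ ≤ 4 * d * (3 * (e * d)) := Nat.mul_le_mul_left _ (by omega)
      _ = 12 * (e * d ^ 2) := by ring
  have hq8 : q ≤ 24 * (e * d ^ 2) := by omega
  have hdX : 4 * d * 2 ≤ X := Nat.mul_le_mul_left _ (by omega)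
  have hdq : d ≤ q := by omega
  have h2dq : 2 * (d - 1) ≤ q := by omega
  have ha : q ≤ 2 ^ e := by
    have h1 : d ≤ 2 * 2 ^ l := by omega
    have h2 : e ≤ 14 * 2 ^ l := Nat.mul_le_mul_left _ hll
    calc q ≤ 24 * (e * d ^ 2) := hq8
      _ ≤ 24 * ((14 * 2 ^ l) * (2 * 2 ^ l) ^ 2) :=
          Nat.mul_le_mul_left _ (Nat.mul_le_mul h2 (Nat.pow_le_pow_left h1 2))
      _ = 1344 * (2 ^ l) ^ 3 := by ring
      _ = 1344 * 2 ^ (3 * l) := by rw [← pow_mul, mul_comm l 3]
      _ ≤ 2 ^ 11 * 2 ^ (3 * l) := Nat.mul_le_mul_right _ (by norm_num)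
      _ = 2 ^ (11 + 3 * l) := (pow_add _ _ _).symm
      _ ≤ 2 ^ e := Nat.pow_le_pow_right (by norm_num) (by omega)
  have hneg : 4 * (q ^ d * (4 * d - 1) ^ q) ≤ (4 * d) ^ q := by
    have h2 := pred_pow_mul_le (4 * d) (e * d + 2) q (by omega) hXq.le
    have h3 : 4 * q ^ d ≤ 2 ^ (e * d + 2) := by
      calc 4 * q ^ d ≤ 4 * (2 ^ e) ^ d :=
            Nat.mul_le_mul_left _ (Nat.pow_le_pow_left ha d)
        _ = 2 ^ (e * d + 2) := by rw [← pow_mul, pow_add]; ring
    calc 4 * (q ^ d * (4 * d - 1) ^ q) = (4 * d - 1) ^ q * (4 * q ^ d) := by ring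
      _ ≤ (4 * d - 1) ^ q * 2 ^ (e * d + 2) := Nat.mul_le_mul_left _ h3
      _ ≤ _ := h2
  set Bd := q / (2 * (d - 1)) with hBd
  have hBd1 : 1 ≤ Bd := Nat.div_pos h2dq (by omega)
  have hc1 : 2 * ((d - 1) * Bd) ≤ q := by
    calc 2 * ((d - 1) * Bd) = q / (2 * (d - 1)) * (2 * (d - 1)) := by rw [hBd]; ring
      _ ≤ q := Nat.div_mul_le_self _ _
  set a := q / Bd + 1 with ha'
  have hc2 : q ≤ a * Bd := by
    have := Nat.lt_div_mul_add (a := q) (b := Bd) (by omega)
    calc q ≤ q / Bd * Bd + Bd := this.le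
      _ = a * Bd := by rw [ha']; ring
  have hc3 : a ≤ 4 * d := by
    have h1 : q < q / (2 * (d - 1)) * (2 * (d - 1)) + 2 * (d - 1) :=
      Nat.lt_div_mul_add (by omega)
    have h2 : q ≤ (4 * (d - 1)) * Bd := by
      have h3 : 2 * (d - 1) ≤ Bd * (2 * (d - 1)) := Nat.le_mul_of_pos_left _ hBd1
      have h4 : (4 * (d - 1)) * Bd = Bd * (2 * (d - 1)) + Bd * (2 * (d - 1)) := by ring
      rw [← hBd] at h1
      omega
    have h5 : q / Bd ≤ 4 * (d - 1) := Nat.div_le_of_le_mul (by rw [mul_comm]; exact h2)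
    omega
  have hqa : q * a ≤ 10752 * (l * L ^ 3) := by
    calc q * a ≤ (24 * (e * d ^ 2)) * (4 * d) := Nat.mul_le_mul hq8 hc3
      _ = 96 * 14 * (l * d ^ 3) := by rw [he]; ring
      _ ≤ 96 * 14 * (l * (2 * L) ^ 3) :=
          Nat.mul_le_mul_left _ (Nat.mul_le_mul_left _ (Nat.pow_le_pow_left hd2L 3))
      _ = 10752 * (l * L ^ 3) := by ring
  refine ⟨d, q, Bd, a, hqp, hd2, hdq, hBd1, hc2, hc1, hneg,
    Nat.pow_le_pow_right (by norm_num) (by omega), ?_, ?_, ?_⟩
  · have h1 : 32 * L * (L + 1) * (q * a) ≤ (64 * 10752) * C' * L ^ 8 := by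
      calc 32 * L * (L + 1) * (q * a) ≤ 32 * L * (2 * L) * (10752 * (l * L ^ 3)) :=
            Nat.mul_le_mul (Nat.mul_le_mul_left _ (by omega)) hqa
        _ = (64 * 10752) * (L ^ 5 * l) := by ring
        _ ≤ (64 * 10752) * (L ^ 7 * (C' * L)) := by
            apply Nat.mul_le_mul_left
            exact Nat.mul_le_mul (Nat.pow_le_pow_right hL (by norm_num)) hlog1
        _ = (64 * 10752) * C' * L ^ 8 := by ring
    have h2 : 16 * L * (q * a) ^ 2 ≤ (16 * 10752 ^ 2) * C' * L ^ 8 := by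
      calc 16 * L * (q * a) ^ 2 ≤ 16 * L * (10752 * (l * L ^ 3)) ^ 2 :=
            Nat.mul_le_mul_left _ (Nat.pow_le_pow_left hqa 2)
        _ = (16 * 10752 ^ 2) * (L ^ 7 * l ^ 2) := by ring
        _ ≤ (16 * 10752 ^ 2) * (L ^ 7 * (C' * L)) :=
            Nat.mul_le_mul_left _ (Nat.mul_le_mul_left _ hlog2)
        _ = (16 * 10752 ^ 2) * C' * L ^ 8 := by ring
    calc 32 * L * (L + 1) * (q * a) + 16 * L * (q * a) ^ 2
        ≤ (64 * 10752) * C' * L ^ 8 + (16 * 10752 ^ 2) * C' * L ^ 8 := Nat.add_le_add h1 h2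
      _ = ((64 * 10752 + 16 * 10752 ^ 2) * C') * L ^ 8 := by ring
      _ ≤ C * L ^ 8 := by
          apply Nat.mul_le_mul_right
          rw [hC]
          have : (64 * 10752 + 16 * 10752 ^ 2) * C' ≤
              (64 * 10752 + 16 * 10752 ^ 2 + 4 * 336 ^ 2 * 64 + 8 * 336 ^ 3 * 128) * C' :=
            Nat.mul_le_mul_right _ (by norm_num)
          omega
  · have h0 : q * 2 ≤ q * d := Nat.mul_le_mul_left q hd2
    have h1 : 2 * q + q * d ≤ 2 * (q * d) := by omega
    have h2 : q * d ≤ 336 * (l * (2 * L) ^ 3) := by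
      calc q * d ≤ (24 * (e * d ^ 2)) * d := Nat.mul_le_mul_right _ hq8
        _ = 336 * (l * d ^ 3) := by rw [he]; ring
        _ ≤ 336 * (l * (2 * L) ^ 3) :=
            Nat.mul_le_mul_left _ (Nat.mul_le_mul_left _ (Nat.pow_le_pow_left hd2L 3))
    calc (2 * q + q * d) ^ 2 ≤ (2 * (q * d)) ^ 2 := Nat.pow_le_pow_left h1 2
      _ ≤ (2 * (336 * (l * (2 * L) ^ 3))) ^ 2 :=
          Nat.pow_le_pow_left (Nat.mul_le_mul_left _ h2) 2
      _ = (4 * 336 ^ 2 * 64) * (L ^ 6 * l ^ 2) := by ring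
      _ ≤ (4 * 336 ^ 2 * 64) * (L ^ 7 * (C' * L)) := by
          apply Nat.mul_le_mul_left
          exact Nat.mul_le_mul (Nat.pow_le_pow_right hL (by norm_num)) hlog2
      _ = ((4 * 336 ^ 2 * 64) * C') * L ^ 8 := by ring
      _ ≤ C * L ^ 8 := by
          apply Nat.mul_le_mul_right
          rw [hC]
          have : (4 * 336 ^ 2 * 64) * C' ≤
              (64 * 10752 + 16 * 10752 ^ 2 + 4 * 336 ^ 2 * 64 + 8 * 336 ^ 3 * 128) * C' :=
            Nat.mul_le_mul_right _ (by norm_num)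
          omega
  · calc 8 * (q ^ 3 * d) ≤ 8 * ((24 * (e * d ^ 2)) ^ 3 * d) :=
          Nat.mul_le_mul_left _ (Nat.mul_le_mul_right _ (Nat.pow_le_pow_left hq8 3))
      _ = (8 * 336 ^ 3) * (d ^ 7 * l ^ 3) := by rw [he]; ring
      _ ≤ (8 * 336 ^ 3) * ((2 * L) ^ 7 * (C' * L)) := by
          apply Nat.mul_le_mul_left
          exact Nat.mul_le_mul (Nat.pow_le_pow_left hd2L 7) hlog3
      _ = ((8 * 336 ^ 3 * 128) * C') * L ^ 8 := by ring
      _ ≤ C * L ^ 8 := by
          apply Nat.mul_le_mul_right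
          rw [hC]
          have : (8 * 336 ^ 3 * 128) * C' ≤
              (64 * 10752 + 16 * 10752 ^ 2 + 4 * 336 ^ 2 * 64 + 8 * 336 ^ 3 * 128) * C' :=
            Nat.mul_le_mul_right _ (by norm_num)
          omega

/-- the hash function -/
def hsh (q Bd a : ℕ) [NeZero q] (h : q ≤ a * Bd) (z : ZMod q) : Fin a :=
  ⟨z.val / Bd, Nat.div_lt_of_lt_mul (by
    rw [mul_comm]; exact lt_of_lt_of_le (ZMod.val_lt z) h)⟩

theorem hsh_fiber (q Bd a : ℕ) [NeZero q] (h : q ≤ a * Bd) (hBd : 1 ≤ Bd) (α : Fin a) :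
    (univ.filter fun z : ZMod q => hsh q Bd a h z = α).card ≤ Bd := by
  have hle : (univ.filter fun z : ZMod q => hsh q Bd a h z = α).card ≤
      (Finset.Ico (α.val * Bd) (α.val * Bd + Bd)).card := by
    apply Finset.card_le_card_of_injOn (fun z => z.val)
    · intro z hz
      simp only [Finset.coe_filter, Finset.mem_univ, true_and, Set.mem_ofPred_eq] at hz
      have h1 : z.val / Bd = α.val := congrArg Fin.val hz
      simp only [Finset.coe_Ico, Set.mem_Ico]
      rw [← h1]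
      have h2 := Nat.div_mul_le_self z.val Bd
      have h3 := Nat.lt_div_mul_add (a := z.val) (b := Bd) (by omega)
      exact ⟨h2, h3⟩
    · intro z _ z' _ hzz
      exact ZMod.val_injective q hzz
  refine hle.trans ?_
  simp

/-- the vertex map of a region of a star packing -/
def starMap {n X Q e : ℕ} {F A : Type} {d p : ℕ} (U : Fin e → Fin n)
    (ua : ((F × Fin d × F × F) ⊕ Fin p) → Fin e)
    (v : Fin X → Fin n) (w : Fin X → Fin Q → F × A → Fin n) :
    Fin X × Fin Q → GV F A Unit d p → Fin n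
  | ρ, .inl (.inl ι) => w ρ.1 ρ.2 ι
  | ρ, .inl (.inr _) => v ρ.1
  | _, .inr z => U (ua z)

/-- the vertex map of a region of a matching packing -/
def matchMap {n K M e : ℕ} {F A : Type} {d p : ℕ} (U : Fin e → Fin n)
    (ua : ((F × Fin d × F × F) ⊕ Fin p) → Fin e) (ix : Fin K × (F × A) → Fin M)
    (z w : Fin M → Fin n) :
    Fin K → GV F A (F × A) d p → Fin n
  | ρ, .inl (.inl ι) => w (ix (ρ, ι))
  | ρ, .inl (.inr ι) => z (ix (ρ, ι))
  | _, .inr c => U (ua c)

theorem main : ∃ C : ℕ, ∀ (n s : ℕ) (D : Circuit (EdgeVar n) s), D.ComputesClique →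
    C * (Nat.log 2 (n * s) + 1) ^ 8 ≤ n → ∀ T : Finset (EdgeVar n),
    T.card ≤ C * (∏ J ∈ D.modules, (1 + D.numDep T J)) * (Nat.log 2 (n * s) + 1) ^ 8 := by
  classical
  obtain ⟨C, hC81, hC⟩ := params
  refine ⟨C, ?_⟩
  intro n s D hD hn T
  by_contra hcon
  push Not at hcon
  set L := Nat.log 2 (n * s) + 1 with hL
  have hL1 : 1 ≤ L := by omega
  set K := ∏ J ∈ D.modules, (1 + D.numDep T J) with hK
  have hK1 : 1 ≤ K := Nat.one_le_iff_ne_zero.2 (prod_ne_zero_iff.2 fun J _ => by omega)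
  obtain ⟨d, q, Bd, a, hqp, hd, hdq, hBd, hqa, h2, hneg, hbig, hs1, hs2, hs3⟩ := hC L hL1
  have : Fact q.Prime := ⟨hqp⟩
  have hq0 : 0 < q := hqp.pos
  have ha0 : 0 < a := by
    rcases Nat.eq_zero_or_pos a with h | h
    · subst h; omega
    · exact h
  have : NeZero a := ⟨by omega⟩
  set φ : ZMod q → Fin a := hsh q Bd a hqa with hφ
  have hB : ∀ α, (univ.filter fun z : ZMod q => φ z = α).card ≤ Bd := hsh_fiber q Bd a hqa hBd
  have hcF : Fintype.card (ZMod q) = q := ZMod.card q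
  have hcI : Fintype.card (ZMod q × Fin a) = q * a := by
    rw [Fintype.card_prod, hcF, Fintype.card_fin]
  -- sizes
  have hL8 : 1 ≤ L ^ 8 := Nat.pow_pos (by omega)
  have hn81 : 81 ≤ n := by
    calc 81 ≤ C := hC81
      _ ≤ C * L ^ 8 := Nat.le_mul_of_pos_right _ hL8
      _ ≤ n := hn
  have hs0 : 0 < s := by
    have := D.out.isLt
    omega
  have hnsL : n * s < 2 ^ L := Nat.lt_pow_succ_log_self (by norm_num) _
  have hnL : n < 2 ^ L := lt_of_le_of_lt (Nat.le_mul_of_pos_right _ hs0) hnsL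
  have hsL : s < 2 ^ d :=
    lt_of_lt_of_le (lt_of_le_of_lt (Nat.le_mul_of_pos_left _ (by omega)) hnsL) hbig
  have hsq : 2 * q + q * d ≤ Nat.sqrt n := by
    rw [Nat.le_sqrt']
    exact hs2.trans hn
  have hsq9 : 9 ≤ Nat.sqrt n := by
    rw [Nat.le_sqrt']
    omega
  have hsq2 : 8 * (Nat.sqrt n + 1) ≤ n := by
    have h1 : Nat.sqrt n * Nat.sqrt n ≤ n := Nat.sqrt_le n
    nlinarith
  have hs3' : 8 * (q ^ 3 * d) ≤ n := hs3.trans hn
  set e := q ^ 3 * d + (Nat.sqrt n + 1) with he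
  have he4 : 4 * e ≤ n := by omega
  have hqa1 : 1 ≤ q * a := Nat.mul_pos hq0 ha0
  have haux : ∀ p, p ≤ Nat.sqrt n + 1 →
      Nonempty (((ZMod q × Fin d × ZMod q × ZMod q) ⊕ Fin p) ↪ Fin e) := by
    intro p hp
    apply Function.Embedding.nonempty_of_card_le
    simp only [Fintype.card_sum, Fintype.card_prod, Fintype.card_fin, hcF]
    have h1 : q * (d * (q * q)) = q ^ 3 * d := by ring
    omega
  have hbound : 32 * L * (L + 1) * (q * a) * K + 16 * L * (q * a) ^ 2 * K ≤ T.card := by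
    refine le_trans ?_ hcon.le
    calc 32 * L * (L + 1) * (q * a) * K + 16 * L * (q * a) ^ 2 * K
        = (32 * L * (L + 1) * (q * a) + 16 * L * (q * a) ^ 2) * K := by ring
      _ ≤ (C * L ^ 8) * K := Nat.mul_le_mul_right _ hs1
      _ = C * K * L ^ 8 := by ring
  rcases CliqueCircuits.exists_packing' T (ZMod q × Fin a) (q * a) e L K hcI hqa1 he4 hnL hL1 hK1
    hbound with hstar | hmatch
  · obtain ⟨U, X, Q, v, lab, w, hU, hv, hUv, hlU, hlv, hlw, hHR, hXQ⟩ := hstar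
    set p := Nat.sqrt n + 1 - (q + 1 + q * d) with hp
    obtain ⟨ua⟩ := haux p (by omega)
    have hcardS : Fintype.card (GS (ZMod q) Unit d p) = Nat.sqrt n + 1 := by
      simp only [Fintype.card_sum, Fintype.card_prod, Fintype.card_fin, hcF, Fintype.card_unit]
      omega
    set ε := starMap U ua v w with hε
    have hpack : IsPack ε (fun ρ : Fin X × Fin Q => ρ.2) := by
      refine ⟨?_, ?_, ?_, ?_⟩
      · rintro ⟨i, y⟩ ⟨i', y'⟩ ((ι | u) | z) ((ι' | u') | z') h
        · have h1 := congrArg lab h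
          simp only [hε, starMap, hlw, Option.some.injEq, Prod.mk.injEq] at h1
          rw [h1.2]
        · have h1 := congrArg lab h
          simp only [hε, starMap, hlw, hlv] at h1
          exact absurd h1 (by simp)
        · have h1 := congrArg lab h
          simp only [hε, starMap, hlw, hlU] at h1
          exact absurd h1 (by simp)
        · have h1 := congrArg lab h
          simp only [hε, starMap, hlw, hlv] at h1
          exact absurd h1.symm (by simp)
        · rfl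
        · exact absurd h.symm (hUv _ _)
        · have h1 := congrArg lab h
          simp only [hε, starMap, hlw, hlU] at h1
          exact absurd h1.symm (by simp)
        · exact absurd h (hUv _ _)
        · have h1 := ua.injective (hU h)
          rw [h1]
      · intro ρ ρ' z
        rfl
      · rintro ⟨i, y⟩ ⟨i', y'⟩ ι h
        have h1 := congrArg lab h
        simp only [hε, starMap, hlw, Option.some.injEq, Prod.mk.injEq] at h1
        exact h1.1
      · rintro ⟨i, y⟩ ⟨i', y'⟩ u h h'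
        have h1 : i = i' := hv h
        exact Prod.ext h1 h'
    have hlt := regions_lt (R := Fin X × Fin Q) φ (fun _ : Unit => ()) (fun _ => ()) ε hpack hd
      (Or.inl fun _ _ => rfl) (fun h => ⟨fun _ => (), fun _ => rfl, fun _ => rfl⟩) hcardS D hD T
      (by
        rintro g ⟨i, y⟩ ι hg
        refine CliqueCircuits.HR.mem (hHR i y ι) g ?_
        rcases hg with ⟨h1, h3⟩ | ⟨h1, h3⟩
        · exact Or.inr ⟨h1, h3⟩
        · exact Or.inl ⟨h1, h3⟩)
      Bd hB (by rw [hcF]; exact h2) (by rw [hcF]; exact hdq) (by rw [hcF]; exact hneg) hsL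
    rw [Fintype.card_prod, Fintype.card_fin, Fintype.card_fin] at hlt
    omega
  · obtain ⟨U, z, w, hU, hz, hw, hzw, hUz, hUw, hHR⟩ := hmatch
    set p := Nat.sqrt n + 1 - (q + q + q * d) with hp
    obtain ⟨ua⟩ := haux p (by omega)
    have hcardS : Fintype.card (GS (ZMod q) (ZMod q) d p) = Nat.sqrt n + 1 := by
      simp only [Fintype.card_sum, Fintype.card_prod, Fintype.card_fin, hcF]
      omega
    have ix : Fin K × (ZMod q × Fin a) ≃ Fin (K * (q * a)) :=
      Fintype.equivOfCardEq (by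
        rw [Fintype.card_prod, hcI, Fintype.card_fin, Fintype.card_fin])
    set ε := matchMap (d := d) U ua ix z w with hε
    have hpack : IsPack ε (id : Fin K → Fin K) := by
      refine ⟨?_, ?_, ?_, ?_⟩
      · rintro ρ ρ' ((ι | u) | c) ((ι' | u') | c') h
        · have h1 := ix.injective (hw h)
          rw [(Prod.mk.inj h1).2]
        · exact absurd h.symm (hzw _ _)
        · exact absurd h.symm (hUw _ _)
        · exact absurd h (hzw _ _)
        · have h1 := ix.injective (hz h)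
          rw [(Prod.mk.inj h1).2]
        · exact absurd h.symm (hUz _ _)
        · exact absurd h (hUw _ _)
        · exact absurd h (hUz _ _)
        · have h1 := ua.injective (hU h)
          rw [h1]
      · intro ρ ρ' c
        rfl
      · intro ρ ρ' ι h
        have h1 := ix.injective (hw h)
        exact (Prod.mk.inj h1).1
      · intro ρ ρ' u _ h
        exact h
    have hlt := regions_lt (R := Fin K) φ (Prod.fst : ZMod q × Fin a → ZMod q) id ε hpack hd
      (Or.inr Function.injective_id) (fun h => ⟨fun i => (i, h i), fun _ => rfl, fun _ => rfl⟩)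
      hcardS D hD T
      (by
        rintro g ρ ι hg
        refine CliqueCircuits.HR.mem (hHR (ix (ρ, ι))) g ?_
        rcases hg with ⟨h1, h3⟩ | ⟨h1, h3⟩
        · exact Or.inr ⟨h1, h3⟩
        · exact Or.inl ⟨h1, h3⟩)
      Bd hB (by rw [hcF]; exact h2) (by rw [hcF]; exact hdq) (by rw [hcF]; exact hneg) hsL
    rw [Fintype.card_fin] at hlt
    exact absurd hlt (lt_irrefl _)

end Pool.Agent.CliqueModules
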